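import Pool.Agent.helper82.T5.SpecS

/-!
# T5, row SR3: summation of the slices (real analysis)
-/

set_option autoImplicit false

namespace Pool.Agent.T5

open Finset NumberField Pool.Agent.helper3.FT Pool.Agent.helper47.RA

noncomputable section

open Filter Topology

def SR3_ua (i : ℕ) : ℝ := 1 / √((2 : ℝ) ^ i)
def SR3_ub (r : ℕ) : ℝ := 1 / (r : ℝ) ^ 2
def SR3_uc (j : ℕ) : ℝ := 1 / (2 : ℝ) ^ j
def SR3_va (i : ℕ) : ℝ := ((2 : ℝ) ^ i) ^ (-(1 / 4) : ℝ)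
def SR3_vb (r : ℕ) : ℝ := ((r : ℝ) ^ 2) ^ (-(3 / 4) : ℝ)
def SR3_vc (j : ℕ) : ℝ := ((2 : ℝ) ^ j) ^ (-(3 / 4) : ℝ)

theorem SR3_prod (a b c : ℕ → ℝ) (I R J : ℕ) :
    ∑ i ∈ range I, ∑ r ∈ Icc 1 R, ∑ j ∈ range J, a i * b r * c j =
      (∑ i ∈ range I, a i) * (∑ r ∈ Icc 1 R, b r) * ∑ j ∈ range J, c j := by
  rw [Finset.sum_mul_sum, Finset.sum_mul]
  refine Finset.sum_congr rfl fun i _ => ?_
  rw [Finset.sum_mul]
  refine Finset.sum_congr rfl fun r _ => ?_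
  rw [Finset.mul_sum]

theorem SR3_ua_eq (i : ℕ) : SR3_ua i = (1 / √2) ^ i := by
  unfold SR3_ua
  induction i with
  | zero => simp
  | succ i ih =>
    rw [pow_succ, pow_succ, ← ih, Real.sqrt_mul (by positivity)]
    have h1 : √((2 : ℝ) ^ i) ≠ 0 := (Real.sqrt_pos.2 (by positivity)).ne'
    have h2 : √(2 : ℝ) ≠ 0 := (Real.sqrt_pos.2 (by norm_num)).ne'
    field_simp

theorem SR3_r2 : 1 / √2 < 1 ∧ 0 < 1 / √2 := by
  have h1 : (1 : ℝ) < √2 := by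
    rw [show (1 : ℝ) = √1 by rw [Real.sqrt_one]]
    exact Real.sqrt_lt_sqrt (by norm_num) (by norm_num)
  constructor
  · rw [div_lt_one (by linarith)]
    exact h1
  · positivity

theorem SR3_hasA : HasSum SR3_ua (1 - 1 / √2)⁻¹ := by
  have h1 := hasSum_geometric_of_lt_one SR3_r2.2.le SR3_r2.1
  have h2 : SR3_ua = fun i => (1 / √2) ^ i := funext SR3_ua_eq
  rw [h2]
  exact h1

theorem SR3_hasB : HasSum SR3_ub (Real.pi ^ 2 / 6) := hasSum_zeta_two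

theorem SR3_hasC : HasSum SR3_uc 2 := by
  have h1 := hasSum_geometric_two
  have h2 : SR3_uc = fun j => ((1 : ℝ) / 2) ^ j := by
    funext j
    unfold SR3_uc
    rw [one_div_pow]
  rw [h2]
  exact h1

theorem SR3_Icc (b : ℕ → ℝ) (hb : b 0 = 0) (R : ℕ) : ∑ r ∈ Icc 1 R, b r = ∑ r ∈ range (R + 1), b r := by
  rw [Finset.range_eq_Ico, Finset.sum_eq_sum_Ico_succ_bot (Nat.succ_pos R), hb, zero_add]
  refine Finset.sum_congr ?_ fun _ _ => rfl
  ext n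
  simp only [Finset.mem_Icc, Finset.mem_Ico]
  omega

theorem SR3_ub0 : SR3_ub 0 = 0 := by
  unfold SR3_ub
  simp

theorem SR3_vb0 : SR3_vb 0 = 0 := by
  unfold SR3_vb
  rw [Nat.cast_zero, zero_pow two_ne_zero, Real.zero_rpow (by norm_num)]

theorem SR3_geo (s : ℝ) (hs : s < 0) : Summable fun i : ℕ => ((2 : ℝ) ^ i) ^ s := by
  have h1 : (fun i : ℕ => ((2 : ℝ) ^ i) ^ s) = fun i : ℕ => ((2 : ℝ) ^ s) ^ i := by
    funext i
    rw [← Real.rpow_natCast, ← Real.rpow_mul (by norm_num), mul_comm, Real.rpow_mul (by norm_num),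
      Real.rpow_natCast]
  rw [h1]
  exact summable_geometric_of_lt_one (by positivity)
    (Real.rpow_lt_one_of_one_lt_of_neg (by norm_num) hs)

theorem SR3_sumVB : Summable SR3_vb := by
  have h1 : SR3_vb = fun n : ℕ => ((n : ℝ) ^ (3 / 2 : ℝ))⁻¹ := by
    funext n
    unfold SR3_vb
    rw [← Real.rpow_natCast (n : ℝ) 2, ← Real.rpow_mul (by positivity), ← Real.rpow_neg (by positivity)]
    norm_num
  rw [h1]
  exact Real.summable_nat_rpow_inv.2 (by norm_num)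

theorem SR3_uv (x y z : ℝ) (hx : 0 < x) (hy : 0 < y) (hz : 0 < z) :
    1 / √x * (1 / y) * (1 / z) =
      (x * (y * z)) ^ (-(1 / 4) : ℝ) * (x ^ (-(1 / 4) : ℝ) * y ^ (-(3 / 4) : ℝ) * z ^ (-(3 / 4) : ℝ)) := by
  rw [Real.mul_rpow hx.le (mul_pos hy hz).le, Real.mul_rpow hy.le hz.le]
  have e1 : x ^ (-(1 / 4) : ℝ) * x ^ (-(1 / 4) : ℝ) = 1 / √x := by
    have h1 : (-(1 / 4) : ℝ) + (-(1 / 4)) = -(1 / 2) := by norm_num
    rw [← Real.rpow_add hx, h1, Real.rpow_neg hx.le, ← Real.sqrt_eq_rpow]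
    exact (one_div _).symm
  have e2 : y ^ (-(1 / 4) : ℝ) * y ^ (-(3 / 4) : ℝ) = 1 / y := by
    have h1 : (-(1 / 4) : ℝ) + (-(3 / 4)) = -1 := by norm_num
    rw [← Real.rpow_add hy, h1, Real.rpow_neg_one]
    exact (one_div _).symm
  have e3 : z ^ (-(1 / 4) : ℝ) * z ^ (-(3 / 4) : ℝ) = 1 / z := by
    have h1 : (-(1 / 4) : ℝ) + (-(3 / 4)) = -1 := by norm_num
    rw [← Real.rpow_add hz, h1, Real.rpow_neg_one]
    exact (one_div _).symm
  rw [← e1, ← e2, ← e3]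
  ring

theorem SR3_c0 : 0 < c0 := by
  unfold c0
  have h1 := SR3_r2.1
  have h2 : 0 < 1 - 1 / √2 := by linarith
  have := Real.pi_pos
  positivity

theorem SR3_const : c0 * ((1 - 1 / √2)⁻¹ * (Real.pi ^ 2 / 6) * 2) = 6 / Real.pi := by
  unfold c0
  have h1 := SR3_r2.1
  have h2 : (1 - 1 / √2) ≠ 0 := by
    intro h
    linarith
  have h3 : Real.pi ≠ 0 := Real.pi_pos.ne'
  have e : Real.pi / 2 * (1 - 1 / √2) * (6 / Real.pi ^ 2) ^ 2 * ((1 - 1 / √2)⁻¹ * (Real.pi ^ 2 / 6) * 2) =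
      ((1 - 1 / √2) * (1 - 1 / √2)⁻¹) * (Real.pi / 2 * (6 / Real.pi ^ 2) ^ 2 * (Real.pi ^ 2 / 6) * 2) := by ring
  rw [e, mul_inv_cancel₀ h2, one_mul]
  field_simp

/-- the pointwise bound -/
theorem SR3_pt (A : ℝ → ℝ → ℝ) (hA : ∀ N Y, 0 ≤ A N Y) (hAN : ∀ N Y, N < 1 → A N Y = 0)
    (hAY : ∀ N Y, Y < 1 → A N Y = 0) (δ κ ε₁ N₀ C : ℝ) (hδ : 0 < δ) (hδ2 : δ ≤ 1 / 10) (hκ : κ = δ / 20)
    (hε : 0 < ε₁) (h1 : ∀ N Y : ℝ, N₀ ≤ N → N ^ (0.39 : ℝ) ≤ Y → Y ≤ N ^ (1 / 2 - δ / 2) →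
      |A N Y - c0 * (Y * √N)| ≤ ε₁ * (Y * √N)) (hC : 1 ≤ C)
    (h2 : ∀ N Y : ℝ, 1 ≤ N → 1 ≤ Y → A N Y ≤ C * (N * Y) ^ (κ / 16) * (Y * √N))
    (N Y : ℝ) (hN : 1 ≤ N) (hNN : N₀ ≤ N ^ (1 - κ)) (hY1 : N ^ (2 / 5 : ℝ) ≤ Y) (hY2 : Y ≤ N ^ (1 / 2 - δ))
    (i r j : ℕ) (hr : 1 ≤ r) :
    |A (N / 2 ^ i) (Y / ((r : ℝ) ^ 2 * 2 ^ j)) - c0 * (SR3_ua i * SR3_ub r * SR3_uc j * (Y * √N))| ≤
      ε₁ * (SR3_ua i * SR3_ub r * SR3_uc j * (Y * √N)) +
        (C + c0) * N ^ (-(κ / 8)) * (SR3_va i * SR3_vb r * SR3_vc j * (Y * √N)) := by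
  have hκ0 : 0 < κ := by rw [hκ]; linarith
  have hN0 : 0 < N := by linarith
  have hY0 : 0 < Y := lt_of_lt_of_le (Real.rpow_pos_of_pos hN0 _) hY1
  have hr0 : (0 : ℝ) < (r : ℝ) ^ 2 := by
    have : (0 : ℝ) < r := by exact_mod_cast hr
    positivity
  have hr1 : (1 : ℝ) ≤ (r : ℝ) ^ 2 := by
    have : (1 : ℝ) ≤ r := by exact_mod_cast hr
    exact one_le_pow₀ this
  have hx : (0 : ℝ) < (2 : ℝ) ^ i := by positivity
  have hx1 : (1 : ℝ) ≤ (2 : ℝ) ^ i := one_le_pow₀ (by norm_num)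
  have hz : (0 : ℝ) < (2 : ℝ) ^ j := by positivity
  have hz1 : (1 : ℝ) ≤ (2 : ℝ) ^ j := one_le_pow₀ (by norm_num)
  set x : ℝ := (2 : ℝ) ^ i with hxd
  set y : ℝ := (r : ℝ) ^ 2 with hyd
  set z : ℝ := (2 : ℝ) ^ j with hzd
  have hyz1 : 1 ≤ y * z := by nlinarith
  set X : ℝ := Y * √N with hX
  have hX0 : 0 < X := mul_pos hY0 (Real.sqrt_pos.2 hN0)
  set u : ℝ := SR3_ua i * SR3_ub r * SR3_uc j with hu
  set v : ℝ := SR3_va i * SR3_vb r * SR3_vc j with hv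
  have hud : u = 1 / √x * (1 / y) * (1 / z) := rfl
  have hvd : v = x ^ (-(1 / 4) : ℝ) * y ^ (-(3 / 4) : ℝ) * z ^ (-(3 / 4) : ℝ) := rfl
  have hu0 : 0 < u := by
    rw [hud]
    have := Real.sqrt_pos.2 hx
    positivity
  have hv0 : 0 < v := by
    rw [hvd]
    positivity
  have hXe : Y / (y * z) * √(N / x) = u * X := by
    rw [Real.sqrt_div hN0.le, hud, hX]
    have h3 : √x ≠ 0 := (Real.sqrt_pos.2 hx).ne'
    field_simp
  have hc0 := SR3_c0
  have hNn : 0 < N ^ (-(κ / 8)) := Real.rpow_pos_of_pos hN0 _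
  by_cases hin : x ≤ N ^ κ ∧ y * z ≤ N ^ κ
  · have hNk : 0 < N ^ κ := Real.rpow_pos_of_pos hN0 _
    have hN' : N ^ (1 - κ) ≤ N / x := by
      rw [Real.rpow_sub hN0, Real.rpow_one]
      exact div_le_div_of_nonneg_left hN0.le hx hin.1
    have hNx : N / x ≤ N := div_le_self hN0.le hx1
    have hNx0 : 0 < N / x := div_pos hN0 hx
    have hYl : (N / x) ^ (0.39 : ℝ) ≤ Y / (y * z) := by
      rw [le_div_iff₀ (by positivity)]
      calc (N / x) ^ (0.39 : ℝ) * (y * z) ≤ N ^ (0.39 : ℝ) * N ^ κ :=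
            mul_le_mul (Real.rpow_le_rpow hNx0.le hNx (by norm_num)) hin.2 (by positivity) (by positivity)
        _ = N ^ ((0.39 : ℝ) + κ) := (Real.rpow_add hN0 _ _).symm
        _ ≤ N ^ (2 / 5 : ℝ) := Real.rpow_le_rpow_of_exponent_le hN (by rw [hκ]; norm_num; linarith)
        _ ≤ Y := hY1
    have hYu : Y / (y * z) ≤ (N / x) ^ (1 / 2 - δ / 2) := by
      calc Y / (y * z) ≤ Y := div_le_self hY0.le hyz1
        _ ≤ N ^ (1 / 2 - δ) := hY2
        _ ≤ N ^ ((1 - κ) * (1 / 2 - δ / 2)) := by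
            refine Real.rpow_le_rpow_of_exponent_le hN ?_
            rw [hκ]
            nlinarith
        _ = (N ^ (1 - κ)) ^ (1 / 2 - δ / 2) := Real.rpow_mul hN0.le _ _
        _ ≤ (N / x) ^ (1 / 2 - δ / 2) :=
            Real.rpow_le_rpow (Real.rpow_nonneg hN0.le _) hN' (by linarith)
    have h3 := h1 (N / x) (Y / (y * z)) (hNN.trans hN') hYl hYu
    rw [hXe] at h3
    refine h3.trans ?_
    have : 0 ≤ (C + c0) * N ^ (-(κ / 8)) * (v * X) := by positivity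
    linarith
  · have hw : N ^ κ ≤ x * (y * z) := by
      rw [not_and_or, not_le, not_le] at hin
      rcases hin with h | h
      · nlinarith
      · nlinarith
    have huv : u ≤ N ^ (-(κ / 4)) * v := by
      rw [hud, SR3_uv x y z hx hr0 hz, ← hvd]
      refine mul_le_mul_of_nonneg_right ?_ hv0.le
      have h3 := Real.rpow_le_rpow_of_nonpos (Real.rpow_pos_of_pos hN0 κ) hw
        (show (-(1 / 4) : ℝ) ≤ 0 by norm_num)
      refine h3.trans (le_of_eq ?_)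
      rw [← Real.rpow_mul hN0.le]
      congr 1
      ring
    have hk8 : 1 ≤ N ^ (κ / 8) := Real.one_le_rpow hN (by linarith)
    have hAle : A (N / x) (Y / (y * z)) ≤ C * N ^ (κ / 8) * (u * X) := by
      have hpos : 0 ≤ C * N ^ (κ / 8) * (u * X) := by positivity
      by_cases hn1 : N / x < 1
      · rw [hAN _ _ hn1]
        exact hpos
      by_cases hy1 : Y / (y * z) < 1
      · rw [hAY _ _ hy1]
        exact hpos
      rw [not_lt] at hn1 hy1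
      have h3 := h2 _ _ hn1 hy1
      rw [hXe] at h3
      refine h3.trans ?_
      refine mul_le_mul_of_nonneg_right ?_ (mul_pos hu0 hX0).le
      refine mul_le_mul_of_nonneg_left ?_ (by linarith)
      have hYN : Y ≤ N := by
        refine hY2.trans ?_
        have := Real.rpow_le_rpow_of_exponent_le hN (show 1 / 2 - δ ≤ 1 by linarith)
        rwa [Real.rpow_one] at this
      have h4 : N / x * (Y / (y * z)) ≤ N ^ (2 : ℝ) := by
        have h5 : N / x ≤ N := div_le_self hN0.le hx1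
        have h6 : Y / (y * z) ≤ N := (div_le_self hY0.le hyz1).trans hYN
        calc N / x * (Y / (y * z)) ≤ N * N := mul_le_mul h5 h6 (by positivity) hN0.le
          _ = N ^ (2 : ℝ) := by rw [Real.rpow_two]; ring
      calc (N / x * (Y / (y * z))) ^ (κ / 16) ≤ (N ^ (2 : ℝ)) ^ (κ / 16) :=
            Real.rpow_le_rpow (by positivity) h4 (by linarith)
        _ = N ^ (κ / 8) := by
            rw [← Real.rpow_mul hN0.le]
            congr 1
            ring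
    have habs : |A (N / x) (Y / (y * z)) - c0 * (u * X)| ≤ (C + c0) * N ^ (κ / 8) * (u * X) := by
      have h3 : 0 ≤ A (N / x) (Y / (y * z)) := hA _ _
      have h4 : 0 ≤ c0 * (u * X) := by positivity
      have h5 : c0 * (u * X) ≤ c0 * N ^ (κ / 8) * (u * X) := by
        have h6 : c0 * 1 ≤ c0 * N ^ (κ / 8) := mul_le_mul_of_nonneg_left hk8 hc0.le
        rw [mul_one] at h6
        exact mul_le_mul_of_nonneg_right h6 (mul_pos hu0 hX0).le
      have h7 : (C + c0) * N ^ (κ / 8) * (u * X) =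
          C * N ^ (κ / 8) * (u * X) + c0 * N ^ (κ / 8) * (u * X) := by ring
      have h8 : 0 ≤ C * N ^ (κ / 8) * (u * X) := by positivity
      rw [abs_le, h7]
      constructor
      · linarith
      · linarith
    refine habs.trans ?_
    have h3 : (C + c0) * N ^ (κ / 8) * (u * X) ≤
        (C + c0) * N ^ (κ / 8) * (N ^ (-(κ / 4)) * v * X) :=
      mul_le_mul_of_nonneg_left (mul_le_mul_of_nonneg_right huv hX0.le) (by positivity)
    have h4 : N ^ (κ / 8) * N ^ (-(κ / 4)) = N ^ (-(κ / 8)) := by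
      rw [← Real.rpow_add hN0]
      congr 1
      ring
    have h5 : (C + c0) * N ^ (κ / 8) * (N ^ (-(κ / 4)) * v * X) =
        (C + c0) * N ^ (-(κ / 8)) * (v * X) := by
      rw [← h4]
      ring
    rw [h5] at h3
    have h6 : 0 ≤ ε₁ * (u * X) := by positivity
    linarith

theorem SR3 : SR3_stmt := by
  intro A hA hAN hAY H1 H2 δ₀ hδ₀ ε hε
  set δ : ℝ := min δ₀ (1 / 10) with hδd
  have hδ : 0 < δ := lt_min hδ₀ (by norm_num)
  have hδ2 : δ ≤ 1 / 10 := min_le_right _ _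
  have hδ3 : δ ≤ δ₀ := min_le_left _ _
  set κ : ℝ := δ / 20 with hκ
  have hκ0 : 0 < κ := by rw [hκ]; linarith
  have hκ1 : κ < 1 := by rw [hκ]; linarith
  set U₀ : ℝ := (1 - 1 / √2)⁻¹ * (Real.pi ^ 2 / 6) * 2 with hU
  have hU0 : 0 < U₀ := by
    have h1 := SR3_r2.1
    have h2 : 0 < 1 - 1 / √2 := by linarith
    have := Real.pi_pos
    rw [hU]
    positivity
  have hc0 := SR3_c0
  set V : ℝ := (∑' i, SR3_va i) * (∑' r, SR3_vb r) * ∑' j, SR3_vc j with hV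
  have nva : ∀ i, 0 ≤ SR3_va i := fun i => Real.rpow_nonneg (by positivity) _
  have nvb : ∀ i, 0 ≤ SR3_vb i := fun i => Real.rpow_nonneg (by positivity) _
  have nvc : ∀ i, 0 ≤ SR3_vc i := fun i => Real.rpow_nonneg (by positivity) _
  have nua : ∀ i, 0 ≤ SR3_ua i := fun i => by unfold SR3_ua; positivity
  have nub : ∀ i, 0 ≤ SR3_ub i := fun i => by unfold SR3_ub; positivity
  have nuc : ∀ i, 0 ≤ SR3_uc i := fun i => by unfold SR3_uc; positivity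
  have hV0 : 0 ≤ V := mul_nonneg (mul_nonneg (tsum_nonneg nva) (tsum_nonneg nvb)) (tsum_nonneg nvc)
  have sva : Summable SR3_va := SR3_geo _ (by norm_num)
  have svc : Summable SR3_vc := SR3_geo _ (by norm_num)
  set ε₁ : ℝ := ε / (4 * (U₀ + 1)) with hε1
  have hε10 : 0 < ε₁ := by positivity
  obtain ⟨N₀, hN₀⟩ := H1 (δ / 2) (by linarith) (by linarith) ε₁ hε10
  obtain ⟨C, hC, hC2⟩ := H2 (κ / 16) (by linarith)
  -- large N
  have t1 : Tendsto (fun N : ℝ => N ^ (1 - κ)) atTop atTop := tendsto_rpow_atTop (by linarith)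
  have t2 : Tendsto (fun N : ℝ => (C + c0) * N ^ (-(κ / 8)) * V) atTop (𝓝 ((C + c0) * 0 * V)) :=
    ((tendsto_rpow_neg_atTop (by linarith)).const_mul _).mul_const _
  rw [mul_zero, zero_mul] at t2
  have ev : ∀ᶠ N : ℝ in atTop, 1 ≤ N ∧ N₀ ≤ N ^ (1 - κ) ∧ (C + c0) * N ^ (-(κ / 8)) * V ≤ ε / 4 := by
    filter_upwards [eventually_ge_atTop (1 : ℝ), t1.eventually_ge_atTop N₀,
      t2.eventually_le_const (show (0 : ℝ) < ε / 4 by linarith)] with N h1 h2 h3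
    exact ⟨h1, h2, h3⟩
  obtain ⟨M, hM⟩ := eventually_atTop.1 ev
  refine ⟨max M 1, le_max_right _ _, ?_⟩
  intro N Y hNM hY1 hY2
  obtain ⟨hN1, hNN, hth⟩ := hM N ((le_max_left _ _).trans hNM)
  have hN0 : 0 < N := by linarith
  have hY0 : 0 < Y := lt_of_lt_of_le (Real.rpow_pos_of_pos hN0 _) hY1
  have hY3 : Y ≤ N ^ (1 / 2 - δ) :=
    hY2.trans (Real.rpow_le_rpow_of_exponent_le hN1 (by linarith))
  set X : ℝ := Y * √N with hX
  have hX0 : 0 < X := mul_pos hY0 (Real.sqrt_pos.2 hN0)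
  -- convergence of the sum of u
  have lA : Tendsto (fun I : ℕ => ∑ i ∈ range I, SR3_ua i) atTop (𝓝 (1 - 1 / √2)⁻¹) :=
    SR3_hasA.tendsto_sum_nat
  have lB : Tendsto (fun R : ℕ => ∑ r ∈ Icc 1 R, SR3_ub r) atTop (𝓝 (Real.pi ^ 2 / 6)) := by
    have h1 : (fun R : ℕ => ∑ r ∈ Icc 1 R, SR3_ub r) = fun R => ∑ r ∈ range (R + 1), SR3_ub r :=
      funext fun R => SR3_Icc SR3_ub SR3_ub0 R
    rw [h1]
    exact (tendsto_add_atTop_iff_nat 1).2 SR3_hasB.tendsto_sum_nat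
  have lC : Tendsto (fun J : ℕ => ∑ j ∈ range J, SR3_uc j) atTop (𝓝 2) :=
    SR3_hasC.tendsto_sum_nat
  have lS : Tendsto (fun p : ℕ × ℕ × ℕ => (∑ i ∈ range p.1, SR3_ua i) * (∑ r ∈ Icc 1 p.2.1, SR3_ub r) *
      ∑ j ∈ range p.2.2, SR3_uc j) (atTop ×ˢ (atTop ×ˢ atTop)) (𝓝 U₀) := by
    refine ((lA.comp tendsto_fst).mul (lB.comp (tendsto_fst.comp tendsto_snd))).mul
      (lC.comp (tendsto_snd.comp tendsto_snd))
  rw [prod_atTop_atTop_eq, prod_atTop_atTop_eq] at lS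
  have hε2 : 0 < ε / (4 * (c0 + 1)) := by positivity
  have evS := (Metric.tendsto_nhds.1 lS) _ hε2
  obtain ⟨⟨I₀, R₁, J₀⟩, hthr⟩ := eventually_atTop.1 evS
  refine ⟨I₀, R₁, J₀, ?_⟩
  intro I R J hI hR hJ
  have hSu := hthr (I, R, J) ⟨hI, hR, hJ⟩
  rw [Real.dist_eq] at hSu
  dsimp only at hSu
  set Su : ℝ := (∑ i ∈ range I, SR3_ua i) * (∑ r ∈ Icc 1 R, SR3_ub r) * ∑ j ∈ range J, SR3_uc j with hSud
  set Sv : ℝ := (∑ i ∈ range I, SR3_va i) * (∑ r ∈ Icc 1 R, SR3_vb r) * ∑ j ∈ range J, SR3_vc j with hSvd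
  have hSuU : Su ≤ U₀ := by
    have h1 : ∑ i ∈ range I, SR3_ua i ≤ (1 - 1 / √2)⁻¹ :=
      sum_le_hasSum _ (fun i _ => nua i) SR3_hasA
    have h2 : ∑ r ∈ Icc 1 R, SR3_ub r ≤ Real.pi ^ 2 / 6 := sum_le_hasSum _ (fun i _ => nub i) SR3_hasB
    have h3 : ∑ j ∈ range J, SR3_uc j ≤ 2 := sum_le_hasSum _ (fun i _ => nuc i) SR3_hasC
    have h4 : 0 ≤ ∑ i ∈ range I, SR3_ua i := Finset.sum_nonneg fun i _ => nua i
    have h5 : 0 ≤ ∑ r ∈ Icc 1 R, SR3_ub r := Finset.sum_nonneg fun i _ => nub i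
    have h6 : 0 ≤ ∑ j ∈ range J, SR3_uc j := Finset.sum_nonneg fun i _ => nuc i
    rw [hSud, hU]
    exact mul_le_mul (mul_le_mul h1 h2 h5 (h4.trans h1)) h3 h6
      (mul_nonneg (h4.trans h1) (h5.trans h2))
  have hSvV : Sv ≤ V := by
    have h1 : ∑ i ∈ range I, SR3_va i ≤ ∑' i, SR3_va i := sva.sum_le_tsum _ fun i _ => nva i
    have h2 : ∑ r ∈ Icc 1 R, SR3_vb r ≤ ∑' r, SR3_vb r := SR3_sumVB.sum_le_tsum _ fun i _ => nvb i
    have h3 : ∑ j ∈ range J, SR3_vc j ≤ ∑' j, SR3_vc j := svc.sum_le_tsum _ fun i _ => nvc i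
    have h4 : 0 ≤ ∑ i ∈ range I, SR3_va i := Finset.sum_nonneg fun i _ => nva i
    have h5 : 0 ≤ ∑ r ∈ Icc 1 R, SR3_vb r := Finset.sum_nonneg fun i _ => nvb i
    have h6 : 0 ≤ ∑ j ∈ range J, SR3_vc j := Finset.sum_nonneg fun i _ => nvc i
    rw [hSvd, hV]
    exact mul_le_mul (mul_le_mul h1 h2 h5 (h4.trans h1)) h3 h6
      (mul_nonneg (h4.trans h1) (h5.trans h2))
  have hSv0 : 0 ≤ Sv := mul_nonneg (mul_nonneg (Finset.sum_nonneg fun i _ => nva i)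
    (Finset.sum_nonneg fun i _ => nvb i)) (Finset.sum_nonneg fun i _ => nvc i)
  set θ : ℝ := (C + c0) * N ^ (-(κ / 8)) with hθ
  have hθ0 : 0 ≤ θ := by
    have := Real.rpow_pos_of_pos hN0 (-(κ / 8))
    positivity
  -- the comparison
  have hcmp : |∑ i ∈ range I, ∑ r ∈ Icc 1 R, ∑ j ∈ range J, A (N / 2 ^ i) (Y / ((r : ℝ) ^ 2 * 2 ^ j)) -
      c0 * (Su * X)| ≤ ε₁ * (Su * X) + θ * (Sv * X) := by
    have e1 : ∑ i ∈ range I, ∑ r ∈ Icc 1 R, ∑ j ∈ range J,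
        c0 * (SR3_ua i * SR3_ub r * SR3_uc j * X) = c0 * (Su * X) := by
      rw [hSud, ← SR3_prod, Finset.sum_mul, Finset.mul_sum]
      refine Finset.sum_congr rfl fun i _ => ?_
      rw [Finset.sum_mul, Finset.mul_sum]
      refine Finset.sum_congr rfl fun r _ => ?_
      rw [Finset.sum_mul, Finset.mul_sum]
    have e2 : ∑ i ∈ range I, ∑ r ∈ Icc 1 R, ∑ j ∈ range J,
        (ε₁ * (SR3_ua i * SR3_ub r * SR3_uc j * X) + θ * (SR3_va i * SR3_vb r * SR3_vc j * X)) =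
        ε₁ * (Su * X) + θ * (Sv * X) := by
      rw [hSud, hSvd, ← SR3_prod, ← SR3_prod, Finset.sum_mul, Finset.sum_mul, Finset.mul_sum,
        Finset.mul_sum, ← Finset.sum_add_distrib]
      refine Finset.sum_congr rfl fun i _ => ?_
      rw [Finset.sum_mul, Finset.sum_mul, Finset.mul_sum, Finset.mul_sum, ← Finset.sum_add_distrib]
      refine Finset.sum_congr rfl fun r _ => ?_
      rw [Finset.sum_mul, Finset.sum_mul, Finset.mul_sum, Finset.mul_sum, ← Finset.sum_add_distrib]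
    rw [← e1, ← e2, ← Finset.sum_sub_distrib]
    refine (Finset.abs_sum_le_sum_abs _ _).trans (Finset.sum_le_sum fun i _ => ?_)
    rw [← Finset.sum_sub_distrib]
    refine (Finset.abs_sum_le_sum_abs _ _).trans (Finset.sum_le_sum fun r hr => ?_)
    rw [← Finset.sum_sub_distrib]
    refine (Finset.abs_sum_le_sum_abs _ _).trans (Finset.sum_le_sum fun j _ => ?_)
    exact SR3_pt A hA hAN hAY δ κ ε₁ N₀ C hδ hδ2 rfl hε10 hN₀ hC hC2 N Y hN1 hNN hY1 hY3 i r j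
      (Finset.mem_Icc.1 hr).1
  have hfin : |c0 * (Su * X) - 6 / Real.pi * X| ≤ ε / 4 * X := by
    have e1 : c0 * (Su * X) - 6 / Real.pi * X = c0 * (Su - U₀) * X := by
      rw [← SR3_const, ← hU]
      ring
    rw [e1, abs_mul, abs_mul, abs_of_pos hc0, abs_of_pos hX0]
    refine mul_le_mul_of_nonneg_right ?_ hX0.le
    calc c0 * |Su - U₀| ≤ c0 * (ε / (4 * (c0 + 1))) := mul_le_mul_of_nonneg_left hSu.le hc0.le
      _ = c0 / (c0 + 1) * (ε / 4) := by field_simp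
      _ ≤ 1 * (ε / 4) := by
          refine mul_le_mul_of_nonneg_right ?_ (by linarith)
          rw [div_le_one (by linarith)]
          linarith
      _ = ε / 4 := one_mul _
  have hb1 : ε₁ * (Su * X) ≤ ε / 4 * X := by
    have h1 : ε₁ * Su ≤ ε / 4 := by
      calc ε₁ * Su ≤ ε₁ * U₀ := mul_le_mul_of_nonneg_left hSuU hε10.le
        _ = U₀ / (U₀ + 1) * (ε / 4) := by rw [hε1]; field_simp
        _ ≤ 1 * (ε / 4) := by
            refine mul_le_mul_of_nonneg_right ?_ (by linarith)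
            rw [div_le_one (by linarith)]
            linarith
        _ = ε / 4 := one_mul _
    calc ε₁ * (Su * X) = ε₁ * Su * X := by ring
      _ ≤ ε / 4 * X := mul_le_mul_of_nonneg_right h1 hX0.le
  have hb2 : θ * (Sv * X) ≤ ε / 4 * X := by
    have h1 : θ * Sv ≤ ε / 4 := (mul_le_mul_of_nonneg_left hSvV hθ0).trans hth
    calc θ * (Sv * X) = θ * Sv * X := by ring
      _ ≤ ε / 4 * X := mul_le_mul_of_nonneg_right h1 hX0.le
  have htri := abs_sub_le (∑ i ∈ range I, ∑ r ∈ Icc 1 R, ∑ j ∈ range J,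
    A (N / 2 ^ i) (Y / ((r : ℝ) ^ 2 * 2 ^ j))) (c0 * (Su * X)) (6 / Real.pi * X)
  have hεX : 0 < ε * X := mul_pos hε hX0
  have e3 : ε / 4 * X = ε * X / 4 := by ring
  rw [e3] at hfin hb1 hb2
  linarith

end

end Pool.Agent.T5
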