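import Pool.Agent.helper8.T5.SpecU

/-!
# T5, row UZC: the zero case `y(β) = 0`
-/

set_option autoImplicit false

namespace Pool.Agent.T5

open Finset NumberField Pool.Agent.helper3.FT Pool.Agent.helper47.RA

theorem UZC (hUEA : UEA_stmt) : UZC_stmt := by
  intro K _ _ Q F hY
  obtain ⟨c, hc⟩ := (Q.Y_eq_zero_iff F.β).1 hY
  have ha0 : F.a ≠ ⊥ := by
    intro h0
    have h1 := F.na
    rw [h0] at h1
    have h2 : Ideal.absNorm (⊥ : Ideal (𝓞 K)) = 0 := Ideal.absNorm_bot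
    rw [h2] at h1
    have h3 : |F.Z| = 0 := by
      rw [← h1]
      rfl
    exact F.hZ (abs_eq_zero.1 h3)
  obtain ⟨I, b, -, hab, hbI, hII, hbb, hNb, -, hr, -, -⟩ := hUEA K Q F.a ha0 F.pa
  -- the conjugate of the ideal of β
  have hcj : Q.cj F.β = F.β := by
    rw [hc]
    exact map_intCast Q.cj c
  have e1 : Ideal.span {F.β} = Ideal.span {(rr Q F.a : 𝓞 K)} * (b ^ 2 * F.L) := by
    rw [← hII, F.iβ]
    have h1 : F.a ^ 2 = (I * b) ^ 2 := congrArg (fun J => J ^ 2) hab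
    rw [h1, mul_pow]
    ring
  have e2 : Ideal.span {F.β} = Ideal.span {(rr Q F.a : 𝓞 K)} * (Q.bar b ^ 2 * Q.bar F.L) := by
    have h1 := Q.bar_span F.β
    rw [hcj, F.iβ, Q.bar_mul, Q.bar_pow] at h1
    have h2 : Q.bar F.a = I * Q.bar b := by
      conv_lhs => rw [hab]
      rw [Q.bar_mul, hbI]
    rw [h2] at h1
    have h3 : Ideal.span {F.β} = F.a ^ 2 * F.L := F.iβ
    rw [h3, ← h1, ← hII, mul_pow]
    ring
  have hr0 : Ideal.span {(rr Q F.a : 𝓞 K)} ≠ 0 := by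
    intro h0
    have h1 : (rr Q F.a : 𝓞 K) = 0 := by
      have : (rr Q F.a : 𝓞 K) ∈ Ideal.span {(rr Q F.a : 𝓞 K)} := Ideal.mem_span_singleton_self _
      rw [h0] at this
      exact (Submodule.mem_bot _).1 this
    have h2 : rr Q F.a = 0 := by exact_mod_cast h1
    omega
  have e3 : b ^ 2 * F.L = Q.bar b ^ 2 * Q.bar F.L := mul_left_cancel₀ hr0 (e1.symm.trans e2)
  have hcop : IsCoprime (Q.bar b ^ 2) (b ^ 2) := by
    refine IsCoprime.pow ?_
    rw [Ideal.isCoprime_iff_sup_eq, sup_comm]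
    exact hbb
  have hd : Q.bar b ^ 2 ∣ F.L := by
    refine hcop.dvd_of_dvd_mul_left ?_
    rw [e3]
    exact dvd_mul_right _ _
  have hn : (zz Q F.a) ^ 2 ∣ Ideal.absNorm F.L := by
    have h1 := map_dvd Ideal.absNorm hd
    rw [map_pow, Q.absNorm_bar, hNb] at h1
    exact h1
  have hn2 : ((zz Q F.a : ℕ) : ℤ) ^ 2 ∣ |F.Λ| := by
    rw [← F.nL]
    exact_mod_cast hn
  exact Int.le_of_dvd (abs_pos.2 F.hΛ) hn2

end Pool.Agent.T5
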